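import Pool.Agent.Y743.CC.Det
import Pool.Agent.Y743.AF.Core

/-! Project CC: the numbers of ordinates in the windows at `t` and at `f t` differ in the mean. -/

set_option autoImplicit false

namespace Pool.Agent.Y743.CC

open Complex Filter Topology MeasureTheory Set
open Pool.Agent.TH850.UV
open SG (NZ)
open Pool.Agent.Y743.AF (Prm PP PP_cont S_CR2 VS_eq' er_eq abs_int_le rc_abs_le rc_abs_le' rc_prime_le
  mem_Prm)
open Pool.Agent.Y743.CL (G rc VS XK rc_bd VS_nonneg comb er er_meas)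

/-- the conditions on the function -/
def Adm (κ T : ℝ) (f f' : ℝ → ℝ) : Prop :=
  (∀ t ∈ Icc T (2 * T), HasDerivAt f (f' t) t) ∧
  (MonotoneOn f' (Icc T (2 * T)) ∨ AntitoneOn f' (Icc T (2 * T))) ∧
  (∀ t ∈ Icc T (2 * T), |f t - t| ≤ T / 8 ∧ |f' t - 1| ≤ κ ∧ 1 ≤ κ * (T * Real.log T) * |f' t - 1|)

lemma mono_of {f f' : ℝ → ℝ} {A B : ℝ} (hf : ∀ t ∈ Icc A B, HasDerivAt f (f' t) t)
    (hf' : ∀ t ∈ Icc A B, 0 ≤ f' t) : MonotoneOn f (Icc A B) := by
  refine monotoneOn_of_deriv_nonneg (convex_Icc A B) (fun t ht => (hf t ht).continuousAt.continuousWithinAt)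
    (fun t ht => ((hf t (interior_subset ht)).differentiableAt).differentiableWithinAt) fun t ht => ?_
  rw [(hf t (interior_subset ht)).deriv]
  exact hf' t (interior_subset ht)

lemma NZ_comp_ii {f : ℝ → ℝ} {A B : ℝ} (hAB : A ≤ B) (hf : MonotoneOn f (Icc A B)) (s : ℝ) :
    IntervalIntegrable (fun t => (NZ (f t + s) : ℝ)) volume A B := by
  apply MonotoneOn.intervalIntegrable
  rw [uIcc_of_le hAB]
  intro x hx y hy hxy
  have h1 := hf hx hy hxy
  have h2 := SG.NZ_mono (show f x + s ≤ f y + s by linarith)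
  show (NZ (f x + s) : ℝ) ≤ NZ (f y + s)
  exact_mod_cast h2

theorem core2 (cr2 : S_CR2) (cv : S_CV) (sd : S_SD) (cr : S_CR) : ∃ a κ T0 : ℝ, 1 ≤ a ∧ 0 < κ ∧
    κ ≤ 1 / 100 ∧ 10 ≤ T0 ∧ ∀ T : ℝ, T0 ≤ T → ∀ f f' : ℝ → ℝ, Adm κ T f f' →
      T / 2 ≤ ∫ t in (5 / 4 * T)..(7 / 4 * T),
        |((NZ (t + 2 * Real.pi * a / Real.log T) : ℝ) - NZ t) -
          ((NZ (f t + 2 * Real.pi * a / Real.log T) : ℝ) - NZ (f t))| := by
  obtain ⟨ℓ, C, T0, hℓ, hC, hT0, hcomb⟩ := comb 1 le_rfl
  obtain ⟨Cs, hCs, hsd⟩ := sd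
  obtain ⟨η, T1, hη, hT1, hcr⟩ := cr (1 / 64) (by norm_num)
  have hℓ0 : 0 < ℓ := by linarith
  have hpi := Real.pi_gt_three
  have hpi4 := Real.pi_lt_d2
  have hpi0 := Real.pi_pos
  set ϑ : ℝ := 1 / (1000 * ℓ) with hϑ
  have hϑ0 : 0 < ϑ := by positivity
  have hϑ8 : ϑ ≤ 1 / 64 := by
    rw [hϑ]
    exact one_div_le_one_div_of_le (by norm_num) (by linarith)
  have hlogϑ : 0 ≤ Real.log (1 / ϑ) := by
    apply Real.log_nonneg
    rw [le_div_iff₀ hϑ0]
    linarith
  set D : ℝ := C * (1 + Real.log (1 / ϑ)) with hD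
  have hD0 : 0 < D := by positivity
  set r : ℝ := 30 * (D + 1) + 2 * ℓ with hr
  have hr30 : 30 * (D + 1) ≤ r := by rw [hr]; linarith
  have hr2 : 2 * ℓ ≤ r := by rw [hr]; linarith
  have hr1 : 4 ≤ r := by linarith
  have hr0 : 0 < r := by linarith
  have hrr : r ≤ r ^ 2 := by nlinarith
  have hrD : 900 * (D + 1) ≤ r ^ 2 := by nlinarith
  set a : ℝ := Real.exp (Real.pi ^ 2 / 2 * (r ^ 2 + D + 1)) with ha
  have hloga : 2 / Real.pi ^ 2 * Real.log a = r ^ 2 + D + 1 := by
    rw [ha, Real.log_exp]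
    field_simp
  have haℓ : 2 * ℓ ≤ a := by
    have h1 := Real.add_one_le_exp (Real.pi ^ 2 / 2 * (r ^ 2 + D + 1))
    rw [← ha] at h1
    have h2 : 1 * (r ^ 2 + D + 1) ≤ Real.pi ^ 2 / 2 * (r ^ 2 + D + 1) := by
      apply mul_le_mul_of_nonneg_right _ (by positivity)
      nlinarith
    linarith
  have ha32 : 32 ≤ a := by linarith
  have ha0 : 0 < a := by linarith
  have hth : Tendsto (fun T : ℝ => 2 * Real.pi * a / Real.log T) atTop (𝓝 0) :=
    Real.tendsto_log_atTop.const_div_atTop _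
  have hlo : ∀ K : ℝ, ∀ᶠ T : ℝ in atTop, Real.log T + K ≤ T / 8 := by
    intro K
    have h1 : (fun T : ℝ => Real.log T + K) =o[atTop] fun T : ℝ => T :=
      Real.isLittleO_log_id_atTop.add (Asymptotics.isLittleO_const_id_atTop _)
    have h2 := h1.bound (c := 1 / 8) (by norm_num)
    filter_upwards [h2, eventually_ge_atTop 1] with T hT hT1
    rw [Real.norm_of_nonneg (by linarith : (0 : ℝ) ≤ T)] at hT
    have := (le_abs_self _).trans hT
    linarith
  have hp38 : ∀ᶠ T : ℝ in atTop, 96 * T ^ (3 / 8 : ℝ) ≤ T := by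
    filter_upwards [(tendsto_rpow_atTop (show (0 : ℝ) < 5 / 8 by norm_num)).eventually_ge_atTop 96,
      eventually_ge_atTop 1] with T hT hT1
    have h1 : T ^ (5 / 8 : ℝ) * T ^ (3 / 8 : ℝ) = T := by
      rw [← Real.rpow_add (by linarith)]
      norm_num
    have h2 := mul_le_mul_of_nonneg_right hT (show 0 ≤ T ^ (3 / 8 : ℝ) by positivity)
    linarith
  have hgl : ∀ᶠ T : ℝ in atTop, 48 * (Real.sqrt T * (1 + Real.log T)) ≤ T / 16 := by
    have h1 : (fun T : ℝ => 1 + Real.log T) =o[atTop] fun T : ℝ => T ^ (1 / 2 : ℝ) := by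
      refine (Asymptotics.isLittleO_const_left.2 (Or.inr ?_)).add
        (isLittleO_log_rpow_atTop (by norm_num))
      exact tendsto_norm_atTop_atTop.comp (tendsto_rpow_atTop (by norm_num))
    have h2 := h1.bound (c := 1 / 768) (by norm_num)
    filter_upwards [h2, eventually_ge_atTop 1] with T hT hT1
    rw [Real.norm_of_nonneg (by positivity : (0 : ℝ) ≤ T ^ (1 / 2 : ℝ)), ← Real.sqrt_eq_rpow] at hT
    have h3 := (le_abs_self _).trans hT
    have h4 := Real.mul_self_sqrt (show 0 ≤ T by linarith)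
    have h5 := Real.sqrt_nonneg T
    nlinarith
  have hev : ∀ᶠ T : ℝ in atTop, ∀ f f' : ℝ → ℝ, Adm (min (1 / 100) (1 / (512 * Real.pi * a * Cs))) T f f' →
      T / 2 ≤ ∫ t in (5 / 4 * T)..(7 / 4 * T),
        |((NZ (t + 2 * Real.pi * a / Real.log T) : ℝ) - NZ t) -
          ((NZ (f t + 2 * Real.pi * a / Real.log T) : ℝ) - NZ (f t))| := by
    filter_upwards [eventually_ge_atTop T0, eventually_ge_atTop T1, eventually_ge_atTop (1 : ℝ),
      hth.eventually (gt_mem_nhds hη), hth.eventually (gt_mem_nhds one_pos),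
      Real.tendsto_log_atTop.eventually_ge_atTop (a * Real.log a),
      Real.tendsto_log_atTop.eventually_ge_atTop (8 / ϑ), hlo 7, hp38, hgl]
      with T hTT0 hTT1 hT1' hTη hTh1 hTa hTϑ hT7 hT38 hTg f f' hadm
    obtain ⟨hf, hmon, hbd⟩ := hadm
    set κ : ℝ := min (1 / 100) (1 / (512 * Real.pi * a * Cs)) with hκ
    have hκ0 : 0 < κ := lt_min (by norm_num) (by positivity)
    have hκ1 : κ ≤ 1 / 100 := min_le_left _ _
    have hκ2 : κ * (512 * Real.pi * a * Cs) ≤ 1 := by
      have := min_le_right (1 / 100) (1 / (512 * Real.pi * a * Cs))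
      rw [← hκ, le_div_iff₀ (by positivity)] at this
      exact this
    have hTpos : 0 < T := by linarith
    have hL0 : 0 < Real.log T := lt_of_lt_of_le (by positivity) hTϑ
    have hϑT : 8 ≤ ϑ * Real.log T := by
      rw [div_le_iff₀ hϑ0] at hTϑ
      linarith
    set L := Real.log T with hL
    set l := L / ℓ with hl
    have hlpos : 0 < l := by positivity
    set h := 2 * Real.pi * a / L with hh
    have hh0 : 0 < h := by positivity
    set X := XK ϑ T with hX
    set u := rc l h with hu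
    -- the facts of `comb`
    obtain ⟨i1, m1, w1⟩ := hcomb T hTT0 a (by linarith) (by linarith) ϑ hϑ0 (by linarith) hϑT
    rw [← hD] at m1 w1
    rw [← hL, ← hl, ← hh, ← hu, ← hX, hloga] at w1
    rw [← hL] at i1 m1
    have w1' := abs_le.1 w1
    -- the length
    have hXle0 : (X : ℝ) ≤ T ^ ϑ := Nat.floor_le (by positivity)
    have hXle : (X : ℝ) ≤ T ^ (1 / 8 : ℝ) :=
      hXle0.trans (Real.rpow_le_rpow_of_exponent_le hT1' (by linarith))
    have hXle64 : (X : ℝ) ≤ T ^ (1 / 64 : ℝ) :=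
      hXle0.trans (Real.rpow_le_rpow_of_exponent_le hT1' hϑ8)
    have hX1 : 1 ≤ X := by
      apply Nat.le_floor
      rw [Nat.cast_one]
      exact Real.one_le_rpow hT1' hϑ0.le
    have hX3 : 12 * (X : ℝ) ^ 3 ≤ T / 8 := by
      have h2 : (X : ℝ) ^ 3 ≤ (T ^ (1 / 8 : ℝ)) ^ 3 := pow_le_pow_left₀ (by positivity) hXle 3
      have h3 : (T ^ (1 / 8 : ℝ)) ^ 3 = T ^ (3 / 8 : ℝ) := by
        rw [← Real.rpow_natCast, ← Real.rpow_mul hTpos.le]
        norm_num
      rw [h3] at h2
      linarith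
    have hX4 : ((X ^ 4 : ℕ) : ℝ) ≤ Real.sqrt T := by
      push_cast
      have h2 : (X : ℝ) ^ 4 ≤ (T ^ (1 / 8 : ℝ)) ^ 4 := pow_le_pow_left₀ (by positivity) hXle 4
      have h3 : (T ^ (1 / 8 : ℝ)) ^ 4 = Real.sqrt T := by
        rw [← Real.rpow_natCast, ← Real.rpow_mul hTpos.le, Real.sqrt_eq_rpow]
        norm_num
      rw [h3] at h2
      exact h2
    have hub : ∀ n, |u n| ≤ 1 := fun n => by
      have := rc_bd hlpos h n
      exact abs_le_of_sq_le_sq (by rw [one_pow]; exact this) (by norm_num)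
    -- the restriction to the inner interval
    have hsub : Icc (5 / 4 * T) (7 / 4 * T) ⊆ Icc T (2 * T) := Icc_subset_Icc (by linarith) (by linarith)
    have hAB : 5 / 4 * T ≤ 7 / 4 * T := by linarith
    have hf2 : ∀ t ∈ Icc (5 / 4 * T) (7 / 4 * T), HasDerivAt f (f' t) t := fun t ht => hf t (hsub ht)
    have hb2 : ∀ t ∈ Icc (5 / 4 * T) (7 / 4 * T), |f' t - 1| ≤ κ := fun t ht => (hbd t (hsub ht)).2.1
    have hkK : ∀ t ∈ Icc (5 / 4 * T) (7 / 4 * T), 99 / 100 ≤ f' t ∧ f' t ≤ 101 / 100 := by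
      intro t ht
      have := abs_le.1 (hb2 t ht)
      constructor <;> linarith [this.1, this.2]
    have hfm : MonotoneOn f (Icc (5 / 4 * T) (7 / 4 * T)) :=
      mono_of hf2 fun t ht => by linarith [(hkK t ht).1]
    -- the correlation
    have hTL : 0 < κ * (T * L) := by positivity
    have hcr' : |∫ t in (5 / 4 * T)..(7 / 4 * T), PP u X (t + h / 2) * PP u X (f t + h / 2)| ≤
        T / 4 * (VS u X / 8 + 1) + T / 16 := by
      have h1 := hcr T hTT1 X hXle64 u (fun p hp => ⟨rc_abs_le hlpos h p hp, by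
          refine (rc_abs_le' hlpos hh0.le p hp).trans ?_
          exact mul_le_mul_of_nonneg_right hTη.le (Real.log_nonneg (by exact_mod_cast hp.one_le))⟩)
        f f' (5 / 4 * T) (7 / 4 * T) (h / 2) (1 / (κ * (T * L))) hAB (by linarith) (by positivity) hf2
        (hmon.imp (fun h => h.mono hsub) (fun h => h.mono hsub)) (fun t ht => ⟨by
          rw [div_le_iff₀ hTL]
          have := (hbd t (hsub ht)).2.2
          linarith, (hb2 t ht).trans (by linarith)⟩)
      have h2 : ∑ p ∈ Prm X, u p ^ 2 / Real.log p ≤ Cs * h := by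
        refine le_trans (Finset.sum_le_sum fun p hp => ?_) (hsd h hh0 hTh1.le X)
        have hpp := (mem_Prm.1 hp).1
        have hp0 : (0 : ℝ) < p := by exact_mod_cast hpp.pos
        have hlog : 0 < Real.log p := Real.log_pos (by exact_mod_cast hpp.one_lt)
        apply div_le_div_of_nonneg_right _ hlog.le
        refine (rc_prime_le hlpos h p hpp).trans ?_
        have h3 : 4 / Real.pi ^ 2 ≤ 1 := by
          rw [div_le_one (by positivity)]; nlinarith
        exact mul_le_of_le_one_left (by positivity) h3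
      have h4 : 4 / (1 / (κ * (T * L))) * ∑ p ∈ Prm X, u p ^ 2 / Real.log p ≤ T / 64 := by
        rw [div_div_eq_mul_div, div_one]
        calc 4 * (κ * (T * L)) * ∑ p ∈ Prm X, u p ^ 2 / Real.log p
            ≤ 4 * (κ * (T * L)) * (Cs * h) := mul_le_mul_of_nonneg_left h2 (by positivity)
          _ = κ * (512 * Real.pi * a * Cs) * (T / 64) := by rw [hh]; field_simp; ring
          _ ≤ 1 * (T / 64) := mul_le_mul_of_nonneg_right hκ2 (by positivity)
          _ = T / 64 := one_mul _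
      have h5 : 0 ≤ T / 4 * (VS u X / 8 + 1) := by
        have := VS_nonneg u X
        positivity
      refine le_trans h1 ?_
      linarith
    have hdet := det2 cr2 cv (V1 := r ^ 2 + 2 * D + 2) (κ := κ) hT1' hX1 hX3 hX4 hTg hub hr1
      (by linarith) (by linarith [w1'.1]) (by linarith [w1'.2]) hκ0.le hκ1 hf2 hb2 hcr'
    -- the errors
    have N1i : IntervalIntegrable (fun t => ((NZ (t + h) : ℝ) - NZ t)) volume
        (5 / 4 * T) (7 / 4 * T) := by
      have h1 := NZ_comp_ii hAB (f := fun t => t) (fun x _ y _ h => h) h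
      have h2 := NZ_comp_ii hAB (f := fun t => t) (fun x _ y _ h => h) 0
      simp only [add_zero] at h2
      exact h1.sub h2
    have N2i : IntervalIntegrable (fun t => ((NZ (f t + h) : ℝ) - NZ (f t))) volume
        (5 / 4 * T) (7 / 4 * T) := by
      have h1 := NZ_comp_ii hAB hfm h
      have h2 := NZ_comp_ii hAB hfm 0
      simp only [add_zero] at h2
      exact h1.sub h2
    have hPu := PP_cont u X
    have hfc : ContinuousOn f (Icc (5 / 4 * T) (7 / 4 * T)) := fun t ht =>
      (hf2 t ht).continuousAt.continuousWithinAt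
    have eN1 : ∀ t, er ℓ ϑ T a t = ((NZ (t + h) : ℝ) - NZ t) - a + PP u X (t + h / 2) := by
      intro t
      have := er_eq ℓ ϑ T a t
      rw [← hL, ← hl, ← hh, ← hu, ← hX] at this
      linarith
    have P1i : IntervalIntegrable (fun t => PP u X (t + h / 2)) volume (5 / 4 * T) (7 / 4 * T) :=
      Continuous.intervalIntegrable (by fun_prop) _ _
    have P2i : IntervalIntegrable (fun t => PP u X (f t + h / 2)) volume (5 / 4 * T) (7 / 4 * T) := by
      apply ContinuousOn.intervalIntegrable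
      rw [uIcc_of_le hAB]
      exact hPu.comp_continuousOn (hfc.add continuousOn_const)
    have E1i : IntervalIntegrable (fun t => |er ℓ ϑ T a t|) volume (5 / 4 * T) (7 / 4 * T) := by
      have : (fun t => |er ℓ ϑ T a t|) = fun t => |((NZ (t + h) : ℝ) - NZ t) - a + PP u X (t + h / 2)| := by
        funext t; rw [eN1]
      rw [this]
      exact ((N1i.sub (continuous_const.intervalIntegrable _ _)).add P1i).abs
    have E2i : IntervalIntegrable (fun t => |er ℓ ϑ T a (f t)|) volume (5 / 4 * T) (7 / 4 * T) := by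
      have : (fun t => |er ℓ ϑ T a (f t)|) = fun t =>
          |((NZ (f t + h) : ℝ) - NZ (f t)) - a + PP u X (f t + h / 2)| := by
        funext t; rw [eN1]
      rw [this]
      exact ((N2i.sub (continuous_const.intervalIntegrable _ _)).add P2i).abs
    have B1 : ∫ t in (5 / 4 * T)..(7 / 4 * T), |er ℓ ϑ T a t| ≤ (D * T + T / 2) / 2 := by
      have := abs_int_le (A0 := T + L) (B0 := 2 * T - L - 7) (A := 5 / 4 * T) (B := 7 / 4 * T)
        (by linarith) (by linarith) (by linarith) i1 E1i m1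
      linarith
    -- the image interval
    set A' := f (5 / 4 * T) with hA'
    set B' := f (7 / 4 * T) with hB'
    have hlen := (cv f f' (5 / 4 * T) (7 / 4 * T) (99 / 100) (101 / 100) (fun _ => 1) hAB (by norm_num)
      hf2 hkK (fun _ => zero_le_one) (continuous_const.intervalIntegrable _ _)).2
    simp only [intervalIntegral.integral_const, smul_eq_mul, mul_one] at hlen
    obtain ⟨hlen1, hlen2⟩ := hlen
    rw [← hA', ← hB'] at hlen1 hlen2
    have hAB' : A' ≤ B' := by linarith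
    have hA1 := abs_le.1 (hbd (5 / 4 * T) ⟨by linarith, by linarith⟩).1
    have hB1 := abs_le.1 (hbd (7 / 4 * T) ⟨by linarith, by linarith⟩).1
    rw [← hA'] at hA1
    rw [← hB'] at hB1
    have E2i' : IntervalIntegrable (fun s => |er ℓ ϑ T a s|) volume A' B' := by
      have h1 := NZ_comp_ii hAB' (f := fun t => t) (fun x _ y _ h => h) h
      have h2 := NZ_comp_ii hAB' (f := fun t => t) (fun x _ y _ h => h) 0
      simp only [add_zero] at h2
      have : (fun s => |er ℓ ϑ T a s|) = fun s =>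
          |((NZ (s + h) : ℝ) - NZ s) - a + PP u X (s + h / 2)| := by
        funext s; rw [eN1]
      rw [this]
      exact (((h1.sub h2).sub (continuous_const.intervalIntegrable _ _)).add
        (Continuous.intervalIntegrable (by fun_prop) _ _)).abs
    have B2 : ∫ t in (5 / 4 * T)..(7 / 4 * T), |er ℓ ϑ T a (f t)| ≤ (11 / 10 * D * T + T) / 2 := by
      have h0 := (cv f f' (5 / 4 * T) (7 / 4 * T) (99 / 100) (101 / 100) (fun s => |er ℓ ϑ T a s|)
        hAB (by norm_num) hf2 hkK (fun _ => abs_nonneg _) E2i').2.1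
      rw [← hA', ← hB'] at h0
      have h1 := abs_int_le hAB' (A0 := T + L) (B0 := 2 * T - L - 7) (by linarith [hA1.1])
        (by linarith [hB1.2]) i1 E2i' m1
      have h2 : 0 ≤ D * T := by positivity
      linarith
    -- the conclusion
    have hfin : ∫ t in (5 / 4 * T)..(7 / 4 * T), (|PP u X (t + h / 2) - PP u X (f t + h / 2)| -
        |er ℓ ϑ T a t| - |er ℓ ϑ T a (f t)|) ≤
        ∫ t in (5 / 4 * T)..(7 / 4 * T), |((NZ (t + h) : ℝ) - NZ t) -
            ((NZ (f t + h) : ℝ) - NZ (f t))| := by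
      refine intervalIntegral.integral_mono_on hAB ?_ ((N1i.sub N2i).abs) fun t _ => ?_
      · exact (((P1i.sub P2i).abs).sub E1i).sub E2i
      · have h1 := eN1 t
        have h2 := eN1 (f t)
        have h3 : PP u X (t + h / 2) - PP u X (f t + h / 2) =
            er ℓ ϑ T a t - er ℓ ϑ T a (f t) - (((NZ (t + h) : ℝ) - NZ t) -
              ((NZ (f t + h) : ℝ) - NZ (f t))) := by
          rw [h1, h2]; ring
        rw [h3]
        have h4 := abs_sub (er ℓ ϑ T a t - er ℓ ϑ T a (f t)) (((NZ (t + h) : ℝ) - NZ t) -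
              ((NZ (f t + h) : ℝ) - NZ (f t)))
        have h5 := abs_sub (er ℓ ϑ T a t) (er ℓ ϑ T a (f t))
        linarith
    rw [intervalIntegral.integral_sub (((P1i.sub P2i).abs).sub E1i) E2i,
      intervalIntegral.integral_sub ((P1i.sub P2i).abs) E1i] at hfin
    refine le_trans ?_ hfin
    have hfin2 : T / 2 * (r / 10) - (D * T + T / 2) / 2 - (11 / 10 * D * T + T) / 2 ≤
        (∫ t in (5 / 4 * T)..(7 / 4 * T), |PP u X (t + h / 2) - PP u X (f t + h / 2)|) -
        (∫ t in (5 / 4 * T)..(7 / 4 * T), |er ℓ ϑ T a t|) -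
        ∫ t in (5 / 4 * T)..(7 / 4 * T), |er ℓ ϑ T a (f t)| := by linarith
    refine le_trans ?_ hfin2
    have h6 : T * (30 * (D + 1)) ≤ T * r := mul_le_mul_of_nonneg_left hr30 hTpos.le
    have h7 : 0 ≤ D * T := by positivity
    linarith
  obtain ⟨T2, hT2⟩ := hev.exists_forall_of_atTop
  exact ⟨a, min (1 / 100) (1 / (512 * Real.pi * a * Cs)), max T2 10, by linarith,
    lt_min (by norm_num) (by positivity), min_le_left _ _, le_max_right _ _,
    fun T hT => hT2 T ((le_max_left _ _).trans hT)⟩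

end Pool.Agent.Y743.CC
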