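import Pool.Agent.Y743.CC.Stm
import Pool.Agent.Y743.AF.Var

/-! Project CC: lower bound for the mean of `|P (t) - P (f t)|`. -/

set_option autoImplicit false

namespace Pool.Agent.Y743.CC

open Complex Filter Topology MeasureTheory Set
open Pool.Agent.TH850.UV
open Pool.Agent.Y743.AF (Prm PP PP_cont S_CR2 VS_eq' m4 sub_int)
open Pool.Agent.Y743.CL (VS VS_nonneg)

lemma l1_low' {f : ℝ → ℝ} {A B s : ℝ} (hAB : A ≤ B) (hf : ContinuousOn f (Icc A B)) (hs : 0 < s) :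
    3 / (2 * s) * (∫ t in A..B, f t ^ 2) - 1 / (2 * s ^ 3) * (∫ t in A..B, f t ^ 4) ≤
      ∫ t in A..B, |f t| := by
  have hf' : ContinuousOn f (uIcc A B) := by rwa [uIcc_of_le hAB]
  have i2 : IntervalIntegrable (fun t => f t ^ 2) volume A B :=
    (hf'.pow 2).intervalIntegrable
  have i4 : IntervalIntegrable (fun t => f t ^ 4) volume A B :=
    (hf'.pow 4).intervalIntegrable
  have i1 : IntervalIntegrable (fun t => |f t|) volume A B := hf'.intervalIntegrable.abs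
  rw [← intervalIntegral.integral_const_mul, ← intervalIntegral.integral_const_mul,
    ← intervalIntegral.integral_sub (i2.const_mul _) (i4.const_mul _)]
  refine intervalIntegral.integral_mono_on hAB ((i2.const_mul _).sub (i4.const_mul _)) i1
    fun t _ => ?_
  set y := |f t| / s with hy
  have hy0 : 0 ≤ y := by positivity
  have h1 : |f t| = s * y := by rw [hy]; field_simp
  have h2 : f t ^ 2 = s ^ 2 * y ^ 2 := by rw [← sq_abs, h1]; ring
  have h4 : f t ^ 4 = s ^ 4 * y ^ 4 := by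
    have : f t ^ 4 = (f t ^ 2) ^ 2 := by ring
    rw [this, h2]; ring
  rw [h2, h4, h1]
  have e : 3 / (2 * s) * (s ^ 2 * y ^ 2) - 1 / (2 * s ^ 3) * (s ^ 4 * y ^ 4) =
      s * (3 / 2 * y ^ 2 - 1 / 2 * y ^ 4) := by
    field_simp
  rw [e]
  apply mul_le_mul_of_nonneg_left _ hs.le
  nlinarith [mul_nonneg hy0 (mul_nonneg (sq_nonneg (y - 1)) (by linarith : 0 ≤ y + 2))]

/-- the deterministic part -/
theorem det2 (cr2 : S_CR2) (cv : S_CV) {T r V1 κ b : ℝ} {X : ℕ} {u : ℕ → ℝ} {f f' : ℝ → ℝ}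
    (hT : 1 ≤ T) (hX : 1 ≤ X)
    (hX3 : 12 * (X : ℝ) ^ 3 ≤ T / 8) (hX4 : ((X ^ 4 : ℕ) : ℝ) ≤ Real.sqrt T)
    (hg : 48 * (Real.sqrt T * (1 + Real.log T)) ≤ T / 16) (hu : ∀ n, |u n| ≤ 1)
    (hr : 4 ≤ r) (hV1 : V1 ≤ 11 / 10 * r ^ 2) (hu1 : r ^ 2 ≤ VS u X) (hu2 : VS u X ≤ V1)
    (_hκ0 : 0 ≤ κ) (hκ : κ ≤ 1 / 100)
    (hf : ∀ t ∈ Icc (5 / 4 * T) (7 / 4 * T), HasDerivAt f (f' t) t)
    (hf' : ∀ t ∈ Icc (5 / 4 * T) (7 / 4 * T), |f' t - 1| ≤ κ)
    (hcr : |∫ t in (5 / 4 * T)..(7 / 4 * T), PP u X (t + b) * PP u X (f t + b)| ≤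
      T / 4 * (VS u X / 8 + 1) + T / 16) :
    T / 2 * (r / 10) ≤ ∫ t in (5 / 4 * T)..(7 / 4 * T), |PP u X (t + b) - PP u X (f t + b)| := by
  have hT0 : 0 < T := by linarith
  have hAB : 5 / 4 * T ≤ 7 / 4 * T := by linarith
  have hPu := PP_cont u X
  have hX0 : 0 ≤ (X : ℝ) ^ 3 := by positivity
  have c0 : ∀ w : ℕ → ℝ, ∑ p ∈ Prm X, w p * w p * Real.cos (0 * Real.log p) = VS w X := by
    intro w
    rw [VS_eq']
    refine Finset.sum_congr rfl fun p _ => ?_
    rw [zero_mul, Real.cos_zero]; ring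
  have hkK : ∀ t ∈ Icc (5 / 4 * T) (7 / 4 * T), 99 / 100 ≤ f' t ∧ f' t ≤ 101 / 100 := by
    intro t ht
    have := abs_le.1 (hf' t ht)
    constructor <;> linarith [this.1, this.2]
  -- the length
  set A' := f (5 / 4 * T) with hA'
  set B' := f (7 / 4 * T) with hB'
  have hlen := cv f f' (5 / 4 * T) (7 / 4 * T) (99 / 100) (101 / 100) (fun _ => 1) hAB (by norm_num)
    hf hkK (fun _ => zero_le_one) (continuous_const.intervalIntegrable _ _)
  simp only [intervalIntegral.integral_const, smul_eq_mul, mul_one] at hlen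
  obtain ⟨-, hlen1, hlen2⟩ := hlen
  rw [← hA', ← hB'] at hlen1 hlen2
  have hlen1' : 99 / 200 * T ≤ B' - A' := by linarith
  have hlen2' : B' - A' ≤ 101 / 200 * T := by linarith
  have hAB' : A' ≤ B' := by linarith
  have hfc : ContinuousOn f (Icc (5 / 4 * T) (7 / 4 * T)) := fun t ht =>
    (hf t ht).continuousAt.continuousWithinAt
  have hVu := VS_nonneg u X
  -- second moments
  have q1 : T / 4 * VS u X - 4 * (X : ℝ) ^ 3 ≤ ∫ t in (5 / 4 * T)..(7 / 4 * T), PP u X (t + b) ^ 2 := by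
    have h1 := cr2 X u u hu hu (5 / 4 * T) (7 / 4 * T) b b hAB
    rw [sub_self, c0] at h1
    have h2 := (abs_le.1 h1).1
    have h3 : (∫ t in (5 / 4 * T)..(7 / 4 * T), (∑ p ∈ Prm X, u p * Real.cos ((t + b) * Real.log p)) *
        (∑ q ∈ Prm X, u q * Real.cos ((t + b) * Real.log q))) =
        ∫ t in (5 / 4 * T)..(7 / 4 * T), PP u X (t + b) ^ 2 := by
      refine intervalIntegral.integral_congr fun t _ => ?_
      simp only [PP]; ring
    rw [h3] at h2
    have h4 : (7 / 4 * T - 5 / 4 * T) / 2 * VS u X = T / 4 * VS u X := by ring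
    linarith
  have q2 : T / 4 * (49 / 50 * VS u X) - 4 * (X : ℝ) ^ 3 ≤
      ∫ t in (5 / 4 * T)..(7 / 4 * T), PP u X (f t + b) ^ 2 := by
    have h0 := (cv f f' (5 / 4 * T) (7 / 4 * T) (99 / 100) (101 / 100) (fun x => PP u X (x + b) ^ 2)
      hAB (by norm_num) hf hkK (fun _ => sq_nonneg _)
      (Continuous.intervalIntegrable (by fun_prop) _ _)).2.2
    rw [← hA', ← hB'] at h0
    have h1 := cr2 X u u hu hu A' B' b b hAB'
    rw [sub_self, c0] at h1
    have h2 := (abs_le.1 h1).1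
    have h3 : (∫ t in A'..B', (∑ p ∈ Prm X, u p * Real.cos ((t + b) * Real.log p)) *
        (∑ q ∈ Prm X, u q * Real.cos ((t + b) * Real.log q))) =
        ∫ t in A'..B', PP u X (t + b) ^ 2 := by
      refine intervalIntegral.integral_congr fun t _ => ?_
      simp only [PP]; ring
    rw [h3] at h2
    have h4 : 99 / 200 * T / 2 * VS u X ≤ (B' - A') / 2 * VS u X :=
      mul_le_mul_of_nonneg_right (by linarith) hVu
    have h5 : 0 ≤ T * VS u X := by positivity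
    have h6 : 99 / 200 * T / 2 * VS u X - 4 * (X : ℝ) ^ 3 ≤
        101 / 100 * ∫ t in (5 / 4 * T)..(7 / 4 * T), PP u X (f t + b) ^ 2 := by linarith
    linarith
  -- fourth moments
  have hlog : 0 ≤ Real.log T := Real.log_nonneg hT
  have hS0 : 0 ≤ Real.sqrt T * (1 + Real.log T) := by positivity
  have hVu2 : VS u X ^ 2 ≤ V1 ^ 2 := pow_le_pow_left₀ hVu hu2 2
  have q3 : ∫ t in (5 / 4 * T)..(7 / 4 * T), PP u X (t + b) ^ 4 ≤
      T * V1 ^ 2 + 16 * (Real.sqrt T * (1 + Real.log T)) * V1 ^ 2 := by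
    have h0 := sub_int (fun s => PP u X s ^ 4) one_pos (5 / 4 * T) (7 / 4 * T) b
    simp only [div_one, one_mul] at h0
    rw [h0]
    refine (m4 u X hX T _ _ hT (by linarith) hX4).trans ?_
    have e : (7 / 4 * T + b - (5 / 4 * T + b)) * (2 * VS u X ^ 2) = T * VS u X ^ 2 := by ring
    rw [e]
    exact add_le_add (mul_le_mul_of_nonneg_left hVu2 hT0.le)
      (mul_le_mul_of_nonneg_left hVu2 (by positivity))
  have q4 : ∫ t in (5 / 4 * T)..(7 / 4 * T), PP u X (f t + b) ^ 4 ≤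
      103 / 100 * T * V1 ^ 2 + 32 * (Real.sqrt T * (1 + Real.log T)) * V1 ^ 2 := by
    have h0 := (cv f f' (5 / 4 * T) (7 / 4 * T) (99 / 100) (101 / 100) (fun x => PP u X (x + b) ^ 4)
      hAB (by norm_num) hf hkK (fun _ => by positivity)
      (Continuous.intervalIntegrable (by fun_prop) _ _)).2.1
    rw [← hA', ← hB'] at h0
    have h1 := sub_int (fun s => PP u X s ^ 4) one_pos A' B' b
    simp only [div_one, one_mul] at h1
    have h2 := m4 u X hX T (A' + b) (B' + b) hT (by linarith) hX4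
    rw [← h1] at h2
    have h3 : (B' + b - (A' + b)) * (2 * VS u X ^ 2) ≤ 101 / 100 * T * V1 ^ 2 := by
      have e : (B' + b - (A' + b)) * (2 * VS u X ^ 2) = (B' - A') * (2 * VS u X ^ 2) := by ring
      rw [e]
      have k1 : (B' - A') * (2 * VS u X ^ 2) ≤ 101 / 200 * T * (2 * V1 ^ 2) := by
        apply mul_le_mul hlen2' (by linarith) (by positivity) (by positivity)
      linarith
    have h4 : 16 * (Real.sqrt T * (1 + Real.log T)) * VS u X ^ 2 ≤
        16 * (Real.sqrt T * (1 + Real.log T)) * V1 ^ 2 := mul_le_mul_of_nonneg_left hVu2 (by positivity)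
    have h5 : 0 ≤ T * V1 ^ 2 := by positivity
    have h6 : 0 ≤ (Real.sqrt T * (1 + Real.log T)) * V1 ^ 2 := by positivity
    linarith
  -- the difference
  set F : ℝ → ℝ := fun t => PP u X (t + b) - PP u X (f t + b) with hF
  have k1 : ContinuousOn (fun t => PP u X (t + b)) (Icc (5 / 4 * T) (7 / 4 * T)) :=
    (hPu.comp (by fun_prop)).continuousOn
  have k2 : ContinuousOn (fun t => PP u X (f t + b)) (Icc (5 / 4 * T) (7 / 4 * T)) :=
    hPu.comp_continuousOn (hfc.add continuousOn_const)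
  have hFc : ContinuousOn F (Icc (5 / 4 * T) (7 / 4 * T)) := k1.sub k2
  have hu' : uIcc (5 / 4 * T) (7 / 4 * T) = Icc (5 / 4 * T) (7 / 4 * T) := uIcc_of_le hAB
  have i1 : IntervalIntegrable (fun t => PP u X (t + b) ^ 2) volume (5 / 4 * T) (7 / 4 * T) :=
    ContinuousOn.intervalIntegrable (by rw [hu']; exact k1.pow 2)
  have i2 : IntervalIntegrable (fun t => PP u X (f t + b) ^ 2) volume (5 / 4 * T) (7 / 4 * T) :=
    ContinuousOn.intervalIntegrable (by rw [hu']; exact k2.pow 2)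
  have i3 : IntervalIntegrable (fun t => PP u X (t + b) * PP u X (f t + b)) volume
      (5 / 4 * T) (7 / 4 * T) := ContinuousOn.intervalIntegrable (by rw [hu']; exact k1.mul k2)
  have i4 : IntervalIntegrable (fun t => PP u X (t + b) ^ 4) volume (5 / 4 * T) (7 / 4 * T) :=
    ContinuousOn.intervalIntegrable (by rw [hu']; exact k1.pow 4)
  have i5 : IntervalIntegrable (fun t => PP u X (f t + b) ^ 4) volume (5 / 4 * T) (7 / 4 * T) :=
    ContinuousOn.intervalIntegrable (by rw [hu']; exact k2.pow 4)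
  have i6 : IntervalIntegrable (fun t => F t ^ 4) volume (5 / 4 * T) (7 / 4 * T) :=
    ContinuousOn.intervalIntegrable (by rw [hu']; exact hFc.pow 4)
  have s2 : T / 2 * (3 / 4 * r ^ 2) ≤ ∫ t in (5 / 4 * T)..(7 / 4 * T), F t ^ 2 := by
    have e : ∫ t in (5 / 4 * T)..(7 / 4 * T), F t ^ 2 =
        (∫ t in (5 / 4 * T)..(7 / 4 * T), PP u X (t + b) ^ 2) +
        (∫ t in (5 / 4 * T)..(7 / 4 * T), PP u X (f t + b) ^ 2) -
        2 * ∫ t in (5 / 4 * T)..(7 / 4 * T), PP u X (t + b) * PP u X (f t + b) := by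
      rw [← intervalIntegral.integral_const_mul, ← intervalIntegral.integral_add i1 i2,
        ← intervalIntegral.integral_sub (i1.add i2) (i3.const_mul 2)]
      refine intervalIntegral.integral_congr fun t _ => ?_
      simp only [hF]; ring
    rw [e]
    have h1 := (abs_le.1 hcr).2
    have hr16 : 16 ≤ r ^ 2 := by nlinarith
    have h3 : T * r ^ 2 ≤ T * VS u X := mul_le_mul_of_nonneg_left hu1 hT0.le
    have h4 : T * 16 ≤ T * r ^ 2 := mul_le_mul_of_nonneg_left hr16 hT0.le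
    linarith
  have s4 : ∫ t in (5 / 4 * T)..(7 / 4 * T), F t ^ 4 ≤ T / 2 * (41 * (r ^ 2) ^ 2) := by
    have h1 : ∫ t in (5 / 4 * T)..(7 / 4 * T), F t ^ 4 ≤ ∫ t in (5 / 4 * T)..(7 / 4 * T),
        8 * (PP u X (t + b) ^ 4 + PP u X (f t + b) ^ 4) := by
      refine intervalIntegral.integral_mono_on hAB i6
        ((i4.add i5).const_mul 8) fun t _ => ?_
      simp only [hF]
      set x := PP u X (t + b)
      set y := PP u X (f t + b)
      have k1 : (x - y) ^ 2 ≤ 2 * (x ^ 2 + y ^ 2) := by nlinarith [sq_nonneg (x + y)]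
      have k2 : ((x - y) ^ 2) ^ 2 ≤ (2 * (x ^ 2 + y ^ 2)) ^ 2 := pow_le_pow_left₀ (sq_nonneg _) k1 2
      nlinarith [sq_nonneg (x ^ 2 - y ^ 2)]
    rw [intervalIntegral.integral_const_mul, intervalIntegral.integral_add i4 i5] at h1
    have h2 : 48 * (Real.sqrt T * (1 + Real.log T)) * V1 ^ 2 ≤ T / 16 * V1 ^ 2 :=
      mul_le_mul_of_nonneg_right hg (sq_nonneg _)
    have hV0 : 0 ≤ V1 := hVu.trans hu2
    have h3 : V1 ^ 2 ≤ (11 / 10 * r ^ 2) ^ 2 := pow_le_pow_left₀ hV0 hV1 2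
    have h4 : 8 * (21 / 10 * T * V1 ^ 2) ≤ 8 * (21 / 10 * T * (11 / 10 * r ^ 2) ^ 2) := by
      apply mul_le_mul_of_nonneg_left _ (by norm_num)
      exact mul_le_mul_of_nonneg_left h3 (by positivity)
    have h5 : 8 * (21 / 10 * T * (11 / 10 * r ^ 2) ^ 2) ≤ T / 2 * (41 * (r ^ 2) ^ 2) := by
      have : 0 ≤ T * (r ^ 2) ^ 2 := by positivity
      nlinarith
    have h6 : 0 ≤ T * V1 ^ 2 := by positivity
    linarith
  have hs := l1_low' hAB hFc (show 0 < 8 * r by linarith)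
  refine le_trans ?_ hs
  have r0 : 0 < r := by linarith
  have h1 : 3 / (2 * (8 * r)) * (T / 2 * (3 / 4 * r ^ 2)) ≤
      3 / (2 * (8 * r)) * ∫ t in (5 / 4 * T)..(7 / 4 * T), F t ^ 2 :=
    mul_le_mul_of_nonneg_left s2 (by positivity)
  have h2 : 1 / (2 * (8 * r) ^ 3) * (∫ t in (5 / 4 * T)..(7 / 4 * T), F t ^ 4) ≤
      1 / (2 * (8 * r) ^ 3) * (T / 2 * (41 * (r ^ 2) ^ 2)) :=
    mul_le_mul_of_nonneg_left s4 (by positivity)
  have h3 : 3 / (2 * (8 * r)) * (T / 2 * (3 / 4 * r ^ 2)) = T / 2 * (r * (9 / 64)) := by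
    field_simp; ring
  have h4 : 1 / (2 * (8 * r) ^ 3) * (T / 2 * (41 * (r ^ 2) ^ 2)) = T / 2 * (r * (41 / 1024)) := by
    field_simp; ring
  have h5 : 0 ≤ T / 2 * r := by positivity
  linarith

end Pool.Agent.Y743.CC
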