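import Pool.Agent.Y743.CC.Sets

/-! Project CC: functions defined near infinity. -/

set_option autoImplicit false

namespace Pool.Agent.Y743.CC

open Filter Topology MeasureTheory Set

theorem ev_adm {κ : ℝ} (hκ : 0 < κ) {f f' : ℝ → ℝ} {x0 : ℝ} (hf : ∀ x, x0 ≤ x → HasDerivAt f (f' x) x)
    (hmon : MonotoneOn f' (Ici x0) ∨ AntitoneOn f' (Ici x0)) (h1 : Tendsto f' atTop (𝓝 1))
    (h2 : Tendsto (fun x => x * Real.log x * |f' x - 1|) atTop atTop) :
    ∀ᶠ T : ℝ in atTop, Adm κ T f f' := by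
  have h3 : ∀ ε : ℝ, 0 < ε → ∃ x1, x0 ≤ x1 ∧ ∀ x, x1 ≤ x → |f' x - 1| ≤ ε := by
    intro ε hε
    have h4 := (Metric.tendsto_nhds.1 h1 ε hε).and (eventually_ge_atTop x0)
    obtain ⟨x1, hx1⟩ := h4.exists_forall_of_atTop
    exact ⟨x1, (hx1 x1 le_rfl).2, fun x hx => by
      have := (hx1 x hx).1
      rw [Real.dist_eq] at this
      exact this.le⟩
  obtain ⟨x1, hx01, hx1⟩ := h3 (1 / 32) (by norm_num)
  obtain ⟨x2, hx02, hx2⟩ := h3 κ hκ
  obtain ⟨x3, hx3⟩ := (h2.eventually_ge_atTop (4 / κ)).exists_forall_of_atTop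
  filter_upwards [eventually_ge_atTop x0, eventually_ge_atTop x1, eventually_ge_atTop x2,
    eventually_ge_atTop x3, eventually_ge_atTop (2 : ℝ), eventually_ge_atTop (32 * |f x1 - x1| + 2 * |x1|)]
    with T t0 t1 t2 t3 t4 t5
  have hT0 : 0 < T := by linarith
  have hlog : 0 < Real.log T := Real.log_pos (by linarith)
  have hsub : Icc T (2 * T) ⊆ Ici x0 := fun x hx => t0.trans hx.1
  refine ⟨fun t ht => hf t (hsub ht), hmon.imp (fun h => h.mono hsub) (fun h => h.mono hsub),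
    fun t ht => ⟨?_, hx2 t (t2.trans ht.1), ?_⟩⟩
  · have hs := slope (A := x1) (B := t) (κ := 1 / 32) (fun x hx => hf x (hx01.trans hx.1))
      (fun x hx => hx1 x hx.1) le_rfl (t1.trans ht.1) le_rfl
    have a1 := abs_le.1 (le_refl |f x1 - x1|)
    have a2 := abs_le.1 (le_refl |x1|)
    rw [abs_le]
    constructor
    · linarith [hs.1, ht.1, ht.2, a1.1, a1.2, a2.1, a2.2]
    · linarith [hs.2, ht.1, ht.2, a1.1, a1.2, a2.1, a2.2]
  · have k1 := hx3 t (t3.trans ht.1)
    have ht0 : 0 < t := by linarith [ht.1]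
    have k2 : Real.log t ≤ 2 * Real.log T := by
      have k3 : Real.log t ≤ Real.log (T * T) := by
        apply Real.log_le_log ht0
        have := mul_le_mul_of_nonneg_right t4 hT0.le
        linarith [ht.2]
      rw [Real.log_mul hT0.ne' hT0.ne'] at k3
      linarith
    have k4 : t * Real.log t ≤ 2 * T * (2 * Real.log T) :=
      mul_le_mul ht.2 k2 (Real.log_nonneg (by linarith [ht.1])) (by linarith)
    have k5 : 4 / κ ≤ 2 * T * (2 * Real.log T) * |f' t - 1| :=
      k1.trans (mul_le_mul_of_nonneg_right k4 (abs_nonneg _))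
    rw [div_le_iff₀ hκ] at k5
    linarith

end Pool.Agent.Y743.CC
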