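import Pool.Agent.Y743.CC.Core
import Pool.Agent.Y743.AF.Cnt

/-! Project CC: curved copies of the set of ordinates. -/

set_option autoImplicit false

namespace Pool.Agent.Y743.CC

open Filter Topology MeasureTheory Set
open SG (NZ ord)
open Pool.Agent.Y743.AF (S_CR2)

/-- the indices of the ordinates in `(x, y]` -/
lemma mem_win {x y : ℝ} (hx : 0 ≤ x) (n : ℕ) :
    n ∈ Finset.Ioc (NZ x) (NZ y) ↔ x < ord n ∧ ord n ≤ y := by
  rw [Finset.mem_Ioc]
  rcases Nat.eq_zero_or_pos n with hn | hn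
  · subst hn
    have h0 : ord 0 = 0 := by
      unfold SG.ord
      simp
    rw [h0]
    constructor
    · rintro ⟨h1, _⟩; omega
    · rintro ⟨h1, _⟩; linarith
  · have h1 := SG.ord_le_iff hn x
    have h2 := SG.ord_le_iff hn y
    constructor
    · rintro ⟨h3, h4⟩
      refine ⟨?_, h2.2 h4⟩
      by_contra h
      push Not at h
      have := h1.1 h
      omega
    · rintro ⟨h3, h4⟩
      refine ⟨?_, h2.1 h4⟩
      by_contra h
      push Not at h
      have := h1.2 h
      linarith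

lemma card_win {x y : ℝ} (hxy : x ≤ y) : ((Finset.Ioc (NZ x) (NZ y)).card : ℝ) = (NZ y : ℝ) - NZ x := by
  rw [Nat.card_Ioc, Nat.cast_sub (SG.NZ_mono hxy)]

lemma slope {f f' : ℝ → ℝ} {A B κ : ℝ} (hf : ∀ t ∈ Icc A B, HasDerivAt f (f' t) t)
    (hb : ∀ t ∈ Icc A B, |f' t - 1| ≤ κ) {x y : ℝ} (hx : A ≤ x) (hxy : x ≤ y) (hy : y ≤ B) :
    (1 - κ) * (y - x) ≤ f y - f x ∧ f y - f x ≤ (1 + κ) * (y - x) := by
  have hsub : Icc x y ⊆ Icc A B := Icc_subset_Icc hx hy
  have hc : ContinuousOn f (Icc x y) := fun t ht => (hf t (hsub ht)).continuousAt.continuousWithinAt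
  have hd : DifferentiableOn ℝ f (interior (Icc x y)) := fun t ht =>
    ((hf t (hsub (interior_subset ht))).differentiableAt).differentiableWithinAt
  constructor
  · exact (convex_Icc x y).mul_sub_le_image_sub_of_le_deriv hc hd (fun t ht => by
      rw [(hf t (hsub (interior_subset ht))).deriv]
      linarith [(abs_le.1 (hb t (hsub (interior_subset ht)))).1]) x (left_mem_Icc.2 hxy) y
      (right_mem_Icc.2 hxy) hxy
  · exact (convex_Icc x y).image_sub_le_mul_sub_of_deriv_le hc hd (fun t ht => by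
      rw [(hf t (hsub (interior_subset ht))).deriv]
      linarith [(abs_le.1 (hb t (hsub (interior_subset ht)))).2]) x (left_mem_Icc.2 hxy) y
      (right_mem_Icc.2 hxy) hxy

theorem curved (cr2 : S_CR2) (cv : S_CV) (sd : S_SD) (cr : S_CR) (me : S_ME) (mb : S_MB) :
    ∃ κ T0 : ℝ, 0 < κ ∧ κ ≤ 1 / 100 ∧ 10 ≤ T0 ∧ ∀ T : ℝ, T0 ≤ T → ∀ f f' : ℝ → ℝ, Adm κ T f f' →
      ∀ σ : ℕ → ℕ, InjOn σ {n | T < ord n ∧ ord n ≤ 2 * T} →
        κ * (T * Real.log T) ≤ (((Finset.Ioc (NZ T) (NZ (2 * T))).filter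
          (fun n => κ / Real.log T ≤ |ord (σ n) - f (ord n)|)).card : ℝ) := by
  obtain ⟨a, κ1, T1, ha, hκ1, hκ1', hT1, hcore⟩ := core2 cr2 cv sd cr
  obtain ⟨C1, T2, hC1, hT2, hup⟩ := SP.PosProp.NZ_up
  obtain ⟨C2, T3, hC2, hT3, hme⟩ := me
  have hpi := Real.pi_gt_three
  have hpi0 := Real.pi_pos
  set K : ℝ := 2 * (C1 * (3 + 2 * Real.pi * a) + 2 * Real.pi * a) + 2 * a + 1 with hK
  have hK0 : 0 < K := by positivity
  set κ : ℝ := min κ1 (1 / (4 * K)) with hκ
  have hκ0 : 0 < κ := lt_min hκ1 (by positivity)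
  have hκκ : κ ≤ κ1 := min_le_left _ _
  have hκK : κ * (4 * K) ≤ 1 := by
    have := min_le_right κ1 (1 / (4 * K))
    rw [← hκ, le_div_iff₀ (by positivity)] at this
    exact this
  have hκ100 : κ ≤ 1 / 100 := hκκ.trans hκ1'
  have hev : ∀ᶠ T : ℝ in atTop, T1 ≤ T ∧ T2 ≤ T ∧ T3 ≤ T ∧ 10 ≤ T ∧
      64 * Real.pi * a * (C2 + 1) ≤ Real.log T := by
    filter_upwards [eventually_ge_atTop T1, eventually_ge_atTop T2, eventually_ge_atTop T3,
      eventually_ge_atTop 10, Real.tendsto_log_atTop.eventually_ge_atTop _] with T h1 h2 h3 h4 h5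
    exact ⟨h1, h2, h3, h4, h5⟩
  obtain ⟨T0, hT0⟩ := hev.exists_forall_of_atTop
  refine ⟨κ, max T0 10, hκ0, hκ100, le_max_right _ _, fun T hT f f' hadm σ hσ => ?_⟩
  obtain ⟨hTT1, hTT2, hTT3, hT10, hTL⟩ := hT0 T ((le_max_left _ _).trans hT)
  by_contra hcon
  push Not at hcon
  have hTpos : 0 < T := by linarith
  set L := Real.log T with hL
  have hπa : 0 < 64 * Real.pi * a := by positivity
  have hL1 : 64 * Real.pi * a ≤ L := by
    have : 64 * Real.pi * a * 1 ≤ 64 * Real.pi * a * (C2 + 1) :=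
      mul_le_mul_of_nonneg_left (by linarith) hπa.le
    linarith
  have hL0 : 0 < L := by linarith
  set h : ℝ := 2 * Real.pi * a / L with hh
  have hh0 : 0 < h := by positivity
  have hh1 : h ≤ 1 := by
    rw [hh, div_le_one hL0]; linarith
  obtain ⟨hf, hmon, hbd⟩ := hadm
  have hadm1 : Adm κ1 T f f' := by
    refine ⟨hf, hmon, fun t ht => ?_⟩
    obtain ⟨b1, b2, b3⟩ := hbd t ht
    refine ⟨b1, b2.trans hκκ, b3.trans ?_⟩
    apply mul_le_mul_of_nonneg_right _ (abs_nonneg _)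
    exact mul_le_mul_of_nonneg_right hκκ (by positivity)
  have hlow := hcore T hTT1 f f' hadm1
  rw [← hL, ← hh] at hlow
  set S := Finset.Ioc (NZ T) (NZ (2 * T)) with hS
  have hmemS : ∀ n, n ∈ S ↔ T < ord n ∧ ord n ≤ 2 * T := fun n => mem_win hTpos.le n
  have hb : ∀ t ∈ Icc T (2 * T), |f' t - 1| ≤ κ := fun t ht => (hbd t ht).2.1
  have hsl : ∀ {x y : ℝ}, T ≤ x → x ≤ y → y ≤ 2 * T →
      (1 - κ) * (y - x) ≤ f y - f x ∧ f y - f x ≤ (1 + κ) * (y - x) := fun hx hxy hy =>
    slope hf hb hx hxy hy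
  have hAB : 5 / 4 * T ≤ 7 / 4 * T := by linarith
  have hsub : Icc (5 / 4 * T) (7 / 4 * T) ⊆ Icc T (2 * T) := Icc_subset_Icc (by linarith) (by linarith)
  -- the matching
  obtain ⟨w, hwi, hw0, hwt, hwI⟩ := mb S ord σ f (5 / 4 * T) (7 / 4 * T) h (κ / L) κ hAB hh0.le
    (by positivity) hκ0.le (by linarith) (by
      intro n hn t ht h1 h2
      have h3 := (hmemS n).1 hn
      exact hsl (by linarith [ht.1]) h1 h3.2)
  have hfm : MonotoneOn f (Icc (5 / 4 * T) (7 / 4 * T)) :=
    mono_of (fun t ht => hf t (hsub ht)) fun t ht => by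
      linarith [(abs_le.1 (hb t (hsub ht))).1]
  have N1i : IntervalIntegrable (fun t => ((NZ (t + h) : ℝ) - NZ t)) volume
      (5 / 4 * T) (7 / 4 * T) := by
    have h1 := NZ_comp_ii hAB (f := fun t => t) (fun x _ y _ h => h) h
    have h2 := NZ_comp_ii hAB (f := fun t => t) (fun x _ y _ h => h) 0
    simp only [add_zero] at h2
    exact h1.sub h2
  have N2i : IntervalIntegrable (fun t => ((NZ (f t + h) : ℝ) - NZ (f t))) volume
      (5 / 4 * T) (7 / 4 * T) := by
    have h1 := NZ_comp_ii hAB hfm h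
    have h2 := NZ_comp_ii hAB hfm 0
    simp only [add_zero] at h2
    exact h1.sub h2
  -- the pointwise inequality
  have hpt : ∀ t ∈ Icc (5 / 4 * T) (7 / 4 * T), ((NZ (t + h) : ℝ) - NZ t) ≤
      ((NZ (f t + h) : ℝ) - NZ (f t)) + w t := by
    intro t ht
    have hft := abs_le.1 (hbd t (hsub ht)).1
    have hft0 : 0 ≤ f t := by linarith [ht.1, hft.1]
    have ht0 : 0 ≤ t := by linarith [ht.1]
    rw [← card_win (show t ≤ t + h by linarith), ← card_win (show f t ≤ f t + h by linarith)]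
    have h1 : Finset.Ioc (NZ t) (NZ (t + h)) = S.filter (fun n => t < ord n ∧ ord n ≤ t + h) := by
      ext n
      rw [Finset.mem_filter, mem_win ht0, hmemS]
      constructor
      · intro h2
        exact ⟨⟨by linarith [ht.1], by linarith [ht.2]⟩, h2⟩
      · exact fun h2 => h2.2
    rw [h1, ← Finset.card_filter_add_card_filter_not
      (s := S.filter (fun n => t < ord n ∧ ord n ≤ t + h))
      (fun n => f t < ord (σ n) ∧ ord (σ n) ≤ f t + h), Nat.cast_add]
    have h2 : (((S.filter (fun n => t < ord n ∧ ord n ≤ t + h)).filter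
        (fun n => f t < ord (σ n) ∧ ord (σ n) ≤ f t + h)).card : ℝ) ≤
        ((Finset.Ioc (NZ (f t)) (NZ (f t + h))).card : ℝ) := by
      have h3 : ((S.filter (fun n => t < ord n ∧ ord n ≤ t + h)).filter
          (fun n => f t < ord (σ n) ∧ ord (σ n) ≤ f t + h)).card ≤
          (Finset.Ioc (NZ (f t)) (NZ (f t + h))).card := by
        refine Finset.card_le_card_of_injOn σ (fun n hn => ?_) (fun n hn m hm hnm => ?_)
        · have hn' := (Finset.mem_filter.1 (Finset.mem_coe.1 hn)).2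
          exact Finset.mem_coe.2 ((mem_win hft0 (σ n)).2 hn')
        · have hn' := (Finset.mem_filter.1 (Finset.mem_filter.1 (Finset.mem_coe.1 hn)).1).1
          have hm' := (Finset.mem_filter.1 (Finset.mem_filter.1 (Finset.mem_coe.1 hm)).1).1
          exact hσ ((hmemS n).1 hn') ((hmemS m).1 hm') hnm
      exact_mod_cast h3
    have h4 := hwt t ht
    rw [← Finset.filter_filter] at h4
    linarith
  -- the integrals
  have hI1 : ∫ t in (5 / 4 * T)..(7 / 4 * T), |((NZ (t + h) : ℝ) - NZ t) -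
      ((NZ (f t + h) : ℝ) - NZ (f t))| ≤ ∫ t in (5 / 4 * T)..(7 / 4 * T),
      (2 * w t - (((NZ (t + h) : ℝ) - NZ t) - ((NZ (f t + h) : ℝ) - NZ (f t)))) := by
    refine intervalIntegral.integral_mono_on hAB ((N1i.sub N2i).abs)
      ((hwi.const_mul 2).sub (N1i.sub N2i)) fun t ht => ?_
    have h1 := hpt t ht
    have h2 := hw0 t
    rw [abs_le]
    constructor <;> linarith
  rw [intervalIntegral.integral_sub (hwi.const_mul 2) (N1i.sub N2i),
    intervalIntegral.integral_sub N1i N2i, intervalIntegral.integral_const_mul] at hI1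
  -- the means
  have hm1 := (abs_le.1 (hme T hTT3 h hh0 hh1 (5 / 4 * T) (7 / 4 * T) (by linarith) hAB
    (by linarith))).1
  set A' := f (5 / 4 * T) with hA'
  set B' := f (7 / 4 * T) with hB'
  have hA1 := abs_le.1 (hbd (5 / 4 * T) ⟨by linarith, by linarith⟩).1
  have hB1 := abs_le.1 (hbd (7 / 4 * T) ⟨by linarith, by linarith⟩).1
  rw [← hA'] at hA1
  rw [← hB'] at hB1
  have hlen := hsl (show T ≤ 5 / 4 * T by linarith) hAB (show 7 / 4 * T ≤ 2 * T by linarith)
  rw [← hA', ← hB'] at hlen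
  have hlen2 : B' - A' ≤ (1 + κ) * (T / 2) := by
    have e : 7 / 4 * T - 5 / 4 * T = T / 2 := by ring
    rw [← e]; exact hlen.2
  have hAB' : A' ≤ B' := by
    have e : 7 / 4 * T - 5 / 4 * T = T / 2 := by ring
    rw [e] at hlen
    have : 0 ≤ (1 - κ) * (T / 2) := by
      apply mul_nonneg <;> linarith
    linarith [hlen.1]
  have hm2 := (abs_le.1 (hme T hTT3 h hh0 hh1 A' B' (by linarith [hA1.1]) hAB'
    (by linarith [hB1.2]))).2
  have N2i' : IntervalIntegrable (fun t => ((NZ (t + h) : ℝ) - NZ t)) volume A' B' := by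
    have h1 := NZ_comp_ii hAB' (f := fun t => t) (fun x _ y _ h => h) h
    have h2 := NZ_comp_ii hAB' (f := fun t => t) (fun x _ y _ h => h) 0
    simp only [add_zero] at h2
    exact h1.sub h2
  have hcv := (cv f f' (5 / 4 * T) (7 / 4 * T) (1 - κ) (1 + κ) (fun t => ((NZ (t + h) : ℝ) - NZ t)) hAB
    (by linarith) (fun t ht => hf t (hsub ht)) (fun t ht => by
      have := abs_le.1 (hb t (hsub ht))
      constructor <;> linarith [this.1, this.2]) (fun t => by
      have := SG.NZ_mono (show t ≤ t + h by linarith)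
      have : (NZ t : ℝ) ≤ NZ (t + h) := by exact_mod_cast this
      linarith) N2i').2.1
  rw [← hA', ← hB'] at hcv
  set I1 := ∫ t in (5 / 4 * T)..(7 / 4 * T), ((NZ (t + h) : ℝ) - NZ t) with hI1d
  set I2 := ∫ t in (5 / 4 * T)..(7 / 4 * T), ((NZ (f t + h) : ℝ) - NZ (f t)) with hI2d
  set I3 := ∫ t in A'..B', ((NZ (t + h) : ℝ) - NZ t) with hI3d
  have hhT : h * T ≤ T / (32 * (C2 + 1)) := by
    rw [hh, div_mul_eq_mul_div, div_le_div_iff₀ hL0 (by positivity)]
    have := mul_le_mul_of_nonneg_left hTL hTpos.le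
    linarith
  have hhT2 : C2 * h * T ≤ T / 32 := by
    have h1 := mul_le_mul_of_nonneg_left hhT hC2.le
    have h2 : C2 * (T / (32 * (C2 + 1))) ≤ T / 32 := by
      rw [← mul_div_assoc, div_le_div_iff₀ (by positivity) (by norm_num)]
      linarith
    have e : C2 * h * T = C2 * (h * T) := by ring
    rw [e]; linarith
  have e1 : h * ((7 / 4 * T - 5 / 4 * T) * L / (2 * Real.pi)) = a * T / 2 := by
    rw [hh]; field_simp; ring
  rw [e1] at hm1
  have e2 : h * ((B' - A') * L / (2 * Real.pi)) ≤ (1 + κ) * (a * T / 2) := by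
    have e3 : h * ((B' - A') * L / (2 * Real.pi)) = (B' - A') * a := by
      rw [hh]; field_simp
    rw [e3]
    have := mul_le_mul_of_nonneg_right hlen2 (show 0 ≤ a by linarith)
    linarith
  have haT : 0 < a * T := by positivity
  have hI2 : I2 ≤ (1 + κ) * (a * T / 2) + κ * I2 + T / 32 := by
    have : (1 - κ) * I2 ≤ (1 + κ) * (a * T / 2) + T / 32 := by linarith
    linarith
  have hI2b : I2 ≤ a * T := by
    by_contra hc
    push Not at hc
    have h1 : (1 - κ) * I2 ≤ (1 + κ) * (a * T / 2) + T / 32 := by linarith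
    have h2 : (1 - κ) * (a * T) ≤ (1 - κ) * I2 := mul_le_mul_of_nonneg_left hc.le (by linarith)
    have h3 : κ * (a * T) ≤ 1 / 100 * (a * T) := mul_le_mul_of_nonneg_right hκ100 haT.le
    have h4 : T ≤ a * T := le_mul_of_one_le_left hTpos.le ha
    linarith
  have hI2c : κ * I2 ≤ κ * (a * T) := mul_le_mul_of_nonneg_left hI2b hκ0.le
  have hdiff : I2 - I1 ≤ 2 * (a * κ * T) + T / 16 := by
    have h1 : a * T / 2 - T / 32 ≤ I1 := by linarith
    have h2 : 0 ≤ a * κ * T := by positivity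
    linarith
  -- the number of the indices
  have hScard : (S.card : ℝ) ≤ C1 * (T * L) := by
    rw [hS, card_win (by linarith)]
    have h1 := hup T hTT2
    have h2 : (0 : ℝ) ≤ NZ T := Nat.cast_nonneg _
    linarith
  have hbad : ((S.filter (fun n => κ / L < |ord (σ n) - f (ord n)|)).card : ℝ) ≤ κ * (T * L) := by
    refine le_trans ?_ hcon.le
    have : S.filter (fun n => κ / L < |ord (σ n) - f (ord n)|) ⊆
        S.filter (fun n => κ / L ≤ |ord (σ n) - f (ord n)|) := by
      intro n hn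
      rw [Finset.mem_filter] at hn ⊢
      exact ⟨hn.1, hn.2.le⟩
    exact_mod_cast Finset.card_le_card this
  have hw1 : (3 * (κ / L) + κ * h) * S.card ≤ κ * T * (C1 * (3 + 2 * Real.pi * a)) := by
    calc (3 * (κ / L) + κ * h) * S.card ≤ (3 * (κ / L) + κ * h) * (C1 * (T * L)) :=
          mul_le_mul_of_nonneg_left hScard (by positivity)
      _ = κ * T * (C1 * (3 + 2 * Real.pi * a)) := by rw [hh]; field_simp
  have hw2 : h * ((S.filter (fun n => κ / L < |ord (σ n) - f (ord n)|)).card : ℝ) ≤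
      κ * T * (2 * Real.pi * a) := by
    calc h * ((S.filter (fun n => κ / L < |ord (σ n) - f (ord n)|)).card : ℝ)
        ≤ h * (κ * (T * L)) := mul_le_mul_of_nonneg_left hbad hh0.le
      _ = κ * T * (2 * Real.pi * a) := by rw [hh]; field_simp
  have hwI' : ∫ t in (5 / 4 * T)..(7 / 4 * T), w t ≤
      κ * T * (C1 * (3 + 2 * Real.pi * a) + 2 * Real.pi * a) := by
    have e : κ * T * (C1 * (3 + 2 * Real.pi * a) + 2 * Real.pi * a) =
      κ * T * (C1 * (3 + 2 * Real.pi * a)) + κ * T * (2 * Real.pi * a) := by ring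
    rw [e]
    linarith
  have hKT : κ * T * K ≤ T / 4 := by
    have := mul_le_mul_of_nonneg_right hκK hTpos.le
    linarith
  have hK' : κ * T * K = 2 * (κ * T * (C1 * (3 + 2 * Real.pi * a) + 2 * Real.pi * a)) +
      2 * (a * κ * T) + κ * T := by rw [hK]; ring
  have hκT : 0 < κ * T := by positivity
  linarith

end Pool.Agent.Y743.CC
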