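import Pool.Agent.Y743.CC.Fin
import Pool.Agent.Y743.AF.Sets

/-! Project CC: the exact version for the set of the ordinates. -/

set_option autoImplicit false

namespace Pool.Agent.Y743.CC

open Filter Topology MeasureTheory Set
open SG (NZ ord)
open Pool.Agent.Y743.AF (Om exists_ord)

theorem sets2 {κ T : ℝ} (hκ : 0 < κ) (hκ1 : κ ≤ 1 / 100) (hT : 10 ≤ T) {f f' : ℝ → ℝ}
    (hadm : Adm κ T f f')
    (h : ∀ σ : ℕ → ℕ, InjOn σ {n | T < ord n ∧ ord n ≤ 2 * T} →
        κ * (T * Real.log T) ≤ (((Finset.Ioc (NZ T) (NZ (2 * T))).filter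
          (fun n => κ / Real.log T ≤ |ord (σ n) - f (ord n)|)).card : ℝ)) :
    ({x : ℝ | x ∈ Om ∧ T < x ∧ x ≤ 2 * T ∧ f x ∈ Om}.ncard : ℝ) ≤
      (NZ (2 * T) : ℝ) - NZ T - κ * (T * Real.log T) := by
  classical
  obtain ⟨hf, hmon, hbd⟩ := hadm
  have hT0 : 0 < T := by linarith
  have hL0 : 0 < Real.log T := Real.log_pos (by linarith)
  choose! ι hι1 hι2 using fun (x : ℝ) (hx : x ∈ Om) => exists_ord hx
  set A : Set ℝ := {x : ℝ | x ∈ Om ∧ T < x ∧ x ≤ 2 * T ∧ f x ∈ Om} with hA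
  set S := Finset.Ioc (NZ T) (NZ (2 * T)) with hS
  have hmemS : ∀ n, n ∈ S ↔ T < ord n ∧ ord n ≤ 2 * T := fun n => mem_win hT0.le n
  have hAS : ∀ x ∈ A, ι x ∈ S := by
    rintro x ⟨hx, hx1, hx2, _⟩
    rw [hmemS, hι2 x hx]
    exact ⟨hx1, hx2⟩
  have hinjA : InjOn ι A := by
    intro x hx y hy hxy
    have h1 := hι2 x hx.1
    rw [hxy, hι2 y hy.1] at h1
    exact h1.symm
  have hAfin : A.Finite := by
    apply Set.Finite.of_injOn (t := (S : Set ℕ)) (f := ι) hAS hinjA S.finite_toSet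
  set M := NZ (3 * T) with hM
  set σ : ℕ → ℕ := fun n => if ord n ∈ A then ι (f (ord n)) else M + n + 1 with hσ
  have hsl : ∀ x ∈ Icc T (2 * T), ∀ y ∈ Icc T (2 * T), x < y → f x < f y := by
    intro x hx y hy hxy
    have h1 := (slope hf (fun t ht => (hbd t ht).2.1) hx.1 hxy.le hy.2).1
    have : 0 < (1 - κ) * (y - x) := mul_pos (by linarith) (by linarith)
    linarith
  have hAle : ∀ x ∈ A, ι (f x) ≤ M := by
    rintro x ⟨hx, hx1, hx2, hx3⟩
    have h1 := (SG.ord_le_iff (hι1 _ hx3) (3 * T)).1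
    rw [hι2 _ hx3] at h1
    apply h1
    have := (abs_le.1 (hbd x ⟨hx1.le, hx2⟩).1).2
    linarith
  have hσinj : InjOn σ {n | ord n ∈ A ∧ n = ι (ord n) ∨ ord n ∉ A} := by
    intro n hn m hm hnm
    simp only [hσ] at hnm
    rcases hn with ⟨hn1, hn2⟩ | hn1 <;> rcases hm with ⟨hm1, hm2⟩ | hm1
    · rw [if_pos hn1, if_pos hm1] at hnm
      have h1 : f (ord n) = f (ord m) := by
        rw [← hι2 _ hn1.2.2.2, ← hι2 _ hm1.2.2.2, hnm]
      have h2 : ord n = ord m := by
        rcases lt_trichotomy (ord n) (ord m) with h3 | h3 | h3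
        · have := hsl _ ⟨hn1.2.1.le, hn1.2.2.1⟩ _ ⟨hm1.2.1.le, hm1.2.2.1⟩ h3
          linarith
        · exact h3
        · have := hsl _ ⟨hm1.2.1.le, hm1.2.2.1⟩ _ ⟨hn1.2.1.le, hn1.2.2.1⟩ h3
          linarith
      rw [hn2, hm2, h2]
    · rw [if_pos hn1, if_neg hm1] at hnm
      have := hAle _ hn1
      omega
    · rw [if_neg hn1, if_pos hm1] at hnm
      have := hAle _ hm1
      omega
    · rw [if_neg hn1, if_neg hm1] at hnm
      omega
  -- indices of repeated ordinates are sent away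
  set τ : ℕ → ℕ := fun n => if ord n ∈ A ∧ n = ι (ord n) then ι (f (ord n)) else M + n + 1 with hτ
  have hτinj : InjOn τ {n | T < ord n ∧ ord n ≤ 2 * T} := by
    intro n _ m _ hnm
    simp only [hτ] at hnm
    by_cases hn1 : ord n ∈ A ∧ n = ι (ord n) <;> by_cases hm1 : ord m ∈ A ∧ m = ι (ord m)
    · have hn' : n ∈ {n | ord n ∈ A ∧ n = ι (ord n) ∨ ord n ∉ A} := Or.inl hn1
      have hm' : m ∈ {n | ord n ∈ A ∧ n = ι (ord n) ∨ ord n ∉ A} := Or.inl hm1
      apply hσinj hn' hm'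
      simp only [hσ]
      rw [if_pos hn1.1, if_pos hm1.1]
      rwa [if_pos hn1, if_pos hm1] at hnm
    · rw [if_pos hn1, if_neg hm1] at hnm
      have := hAle _ hn1.1
      omega
    · rw [if_neg hn1, if_pos hm1] at hnm
      have := hAle _ hm1.1
      omega
    · rw [if_neg hn1, if_neg hm1] at hnm
      omega
  have h1 := h τ hτinj
  -- the image of `A`
  have hI : (S.filter (fun n => κ / Real.log T ≤ |ord (τ n) - f (ord n)|)) ⊆
      S \ (hAfin.toFinset.image ι) := by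
    intro n hn
    rw [Finset.mem_filter] at hn
    rw [Finset.mem_sdiff]
    refine ⟨hn.1, fun hc => ?_⟩
    rw [Finset.mem_image] at hc
    obtain ⟨x, hx, hxn⟩ := hc
    have hxA := hAfin.mem_toFinset.1 hx
    have hox : ord n = x := by rw [← hxn]; exact hι2 x hxA.1
    have hτn : τ n = ι (f (ord n)) := by
      simp only [hτ]
      rw [if_pos]
      exact ⟨by rw [hox]; exact hxA, by rw [hox, hxn]⟩
    have h2 := hn.2
    rw [hτn, hox, hι2 _ hxA.2.2.2, sub_self, abs_zero] at h2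
    have : 0 < κ / Real.log T := by positivity
    linarith
  have h2 := Finset.card_le_card hI
  have h3 : hAfin.toFinset.image ι ⊆ S := by
    intro n hn
    rw [Finset.mem_image] at hn
    obtain ⟨x, hx, hxn⟩ := hn
    rw [← hxn]
    exact hAS x (hAfin.mem_toFinset.1 hx)
  have h4 : (hAfin.toFinset.image ι).card = A.ncard := by
    rw [Finset.card_image_of_injOn, Set.ncard_eq_toFinset_card A hAfin]
    rw [hAfin.coe_toFinset]
    exact hinjA
  rw [Finset.card_sdiff_of_subset h3, h4] at h2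
  have h5 : A.ncard ≤ S.card := by
    rw [← h4]; exact Finset.card_le_card h3
  have h6 : ((S.filter (fun n => κ / Real.log T ≤ |ord (τ n) - f (ord n)|)).card : ℝ) ≤
      (S.card : ℝ) - A.ncard := by
    rw [← Nat.cast_sub h5]
    exact_mod_cast h2
  have h7 : (S.card : ℝ) = (NZ (2 * T) : ℝ) - NZ T := card_win (by linarith)
  linarith

end Pool.Agent.Y743.CC
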