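import Pool.Agent.Y743.AF.Gre

/-! Project CC (helper743): curved maps do not map almost all ordinates of zeta zeros (almost) to
ordinates.  Statements of the tasks. -/

set_option autoImplicit false

open MeasureTheory Filter

namespace Pool.Agent.Y743.CC

open Pool.Agent.Y743.AF (Prm PP)
open SG (NZ)

/-- FD: the first derivative test (van der Corput). -/
def S_FD : Prop := ∀ (F F' : ℝ → ℝ) (A B m : ℝ), A ≤ B → 0 < m →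
  (∀ t ∈ Set.Icc A B, HasDerivAt F (F' t) t) →
  (MonotoneOn F' (Set.Icc A B) ∨ AntitoneOn F' (Set.Icc A B)) →
  (∀ t ∈ Set.Icc A B, m ≤ |F' t|) →
  |∫ t in A..B, Real.cos (F t)| ≤ 4 / m

/-- LP: few pairs of different primes `(p, q)` lie near the curve `p = q ^ s`, uniformly in `s`. -/
def S_LP : Prop := ∀ ε : ℝ, 0 < ε → ∃ η T0 : ℝ, 0 < η ∧ 1 ≤ T0 ∧ ∀ T : ℝ, T0 ≤ T →
  ∀ X : ℕ, (X : ℝ) ≤ T ^ (1 / 64 : ℝ) → ∀ u : ℕ → ℝ,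
    (∀ p : ℕ, p.Prime → |u p| ≤ 1 / Real.sqrt p ∧ |u p| ≤ η * Real.log p) →
    ∀ s : ℝ, 7 / 8 ≤ s → s ≤ 9 / 8 →
      ∑ p ∈ Prm X, ∑ q ∈ (Prm X).filter
        (fun q => q ≠ p ∧ |Real.log p - s * Real.log q| ≤ T ^ (-(1 / 2) : ℝ)), |u p| * |u q| ≤ ε

/-- CR: the correlation of the prime polynomials at `t` and at `f t`. -/
def S_CR : Prop := ∀ ε : ℝ, 0 < ε → ∃ η T0 : ℝ, 0 < η ∧ 1 ≤ T0 ∧ ∀ T : ℝ, T0 ≤ T →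
  ∀ X : ℕ, (X : ℝ) ≤ T ^ (1 / 64 : ℝ) → ∀ u : ℕ → ℝ,
    (∀ p : ℕ, p.Prime → |u p| ≤ 1 / Real.sqrt p ∧ |u p| ≤ η * Real.log p) →
    ∀ (f f' : ℝ → ℝ) (A B b m : ℝ), A ≤ B → B - A ≤ T → 0 < m →
      (∀ t ∈ Set.Icc A B, HasDerivAt f (f' t) t) →
      (MonotoneOn f' (Set.Icc A B) ∨ AntitoneOn f' (Set.Icc A B)) →
      (∀ t ∈ Set.Icc A B, m ≤ |f' t - 1| ∧ |f' t - 1| ≤ 1 / 8) →
      |∫ t in A..B, (∑ p ∈ Prm X, u p * Real.cos ((t + b) * Real.log p)) *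
        (∑ q ∈ Prm X, u q * Real.cos ((f t + b) * Real.log q))| ≤
        ε * T + 4 / m * ∑ p ∈ Prm X, u p ^ 2 / Real.log p

/-- SD: the sum that comes from the diagonal. -/
def S_SD : Prop := ∃ C : ℝ, 0 < C ∧ ∀ h : ℝ, 0 < h → h ≤ 1 → ∀ X : ℕ,
  ∑ p ∈ Prm X, Real.sin (h / 2 * Real.log p) ^ 2 / p / Real.log p ≤ C * h

/-- CV: change of variables. -/
def S_CV : Prop := ∀ (f f' : ℝ → ℝ) (A B k K : ℝ) (g : ℝ → ℝ), A ≤ B → 0 < k →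
  (∀ t ∈ Set.Icc A B, HasDerivAt f (f' t) t) → (∀ t ∈ Set.Icc A B, k ≤ f' t ∧ f' t ≤ K) →
  (∀ x, 0 ≤ g x) → IntervalIntegrable g volume (f A) (f B) →
    IntervalIntegrable (fun t => g (f t)) volume A B ∧
    k * (∫ t in A..B, g (f t)) ≤ ∫ x in (f A)..(f B), g x ∧
    ∫ x in (f A)..(f B), g x ≤ K * ∫ t in A..B, g (f t)

/-- ME: the mean of the number of ordinates in the windows. -/
def S_ME : Prop := ∃ C T0 : ℝ, 0 < C ∧ 10 ≤ T0 ∧ ∀ T : ℝ, T0 ≤ T → ∀ h : ℝ, 0 < h → h ≤ 1 →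
  ∀ A B : ℝ, T ≤ A → A ≤ B → B + 1 ≤ 2 * T →
    |(∫ t in A..B, ((NZ (t + h) : ℝ) - NZ t)) - h * ((B - A) * Real.log T / (2 * Real.pi))| ≤
      C * h * T

/-- MB: the windows under a matching. -/
def S_MB : Prop := ∀ (S : Finset ℕ) (g : ℕ → ℝ) (σ : ℕ → ℕ) (f : ℝ → ℝ) (A B h η κ : ℝ),
  A ≤ B → 0 ≤ h → 0 ≤ η → 0 ≤ κ → κ ≤ 1 / 2 →
  (∀ n ∈ S, ∀ t ∈ Set.Icc A B, t ≤ g n → g n ≤ t + h →
    (1 - κ) * (g n - t) ≤ f (g n) - f t ∧ f (g n) - f t ≤ (1 + κ) * (g n - t)) →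
  ∃ w : ℝ → ℝ, IntervalIntegrable w volume A B ∧ (∀ t, 0 ≤ w t) ∧
    (∀ t ∈ Set.Icc A B, ((S.filter (fun n => (t < g n ∧ g n ≤ t + h) ∧
      ¬ (f t < g (σ n) ∧ g (σ n) ≤ f t + h))).card : ℝ) ≤ w t) ∧
    ∫ t in A..B, w t ≤ (3 * η + κ * h) * S.card +
      h * ((S.filter (fun n => η < |g (σ n) - f (g n)|)).card : ℝ)

end Pool.Agent.Y743.CC
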